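import Mathlib
import Pool.Agent.H298Z.PRMain

/-! # A polynomial pattern that is partition regular over the naturals but not over `T`

The pattern is `{x, y, z, w, 2x + 2y + 3z + xy + 2zw}`. It contains all of its variables, and over
the positive integers it has monochromatic instances with arbitrarily large, pairwise distinct
values. -/

set_option autoImplicit false

namespace Pool.Agent.Results.MP_700e60_co.Counterexample

/-- The pattern `{x, y, z, w, 2x + 2y + 3z + xy + 2zw}` is partition regular over the positive
integers (with `N < x < z < w < y` for any given `N`), but for some finite colouring of the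
polynomials with nonnegative integer coefficients it has no monochromatic instance with
`x, y, z, w` nonzero polynomials of zero constant term. -/
theorem result :
    (∀ (r : ℕ) (c : ℕ → Fin r) (N : ℕ), ∃ x y z w : ℕ, N < x ∧ x < z ∧ z < w ∧ w < y ∧
      c y = c x ∧ c z = c x ∧ c w = c x ∧
      c (2 * x + 2 * y + 3 * z + x * y + 2 * z * w) = c x) ∧
    (∃ (r : ℕ) (c : Polynomial ℕ → Fin r), ∀ x y z w : Polynomial ℕ,
      x ≠ 0 → x.coeff 0 = 0 → y ≠ 0 → y.coeff 0 = 0 → z ≠ 0 → z.coeff 0 = 0 →
      w ≠ 0 → w.coeff 0 = 0 →
      ¬ (c y = c x ∧ c z = c x ∧ c w = c x ∧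
        c (2 * x + 2 * y + 3 * z + x * y + 2 * z * w) = c x)) :=
  ⟨Pool.Agent.H298Z.PR.regular_nat, Pool.Agent.H298Z.PR.not_regular_poly⟩

end Pool.Agent.Results.MP_700e60_co.Counterexample
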